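import Pool.Agent.L7h17.OC.Stm

/-!
# Project OC: parts COEF, EXP, INV (complex coordinates)
-/

set_option autoImplicit false

open MvPolynomial

namespace Pool.Agent.L7h94.OC

open Pool.Agent.L7h17.OC

/-- a polynomial expression in one variable that vanishes identically has zero coefficients -/
theorem poly_zero (n : ℕ) (g : ℕ → ℂ) (h : ∀ z : ℂ, ∑ a ∈ Finset.range n, g a * z ^ a = 0) :
    ∀ a < n, g a = 0 := by
  intro a ha
  have h1 : (∑ a ∈ Finset.range n, Polynomial.C (g a) * Polynomial.X ^ a : Polynomial ℂ) = 0 := by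
    apply Polynomial.funext
    intro z
    rw [Polynomial.eval_finsetSum, Polynomial.eval_zero, ← h z]
    exact Finset.sum_congr rfl fun a _ => by simp
  have h2 := congrArg (fun p => Polynomial.coeff p a) h1
  simp only [Polynomial.finsetSum_coeff, Polynomial.coeff_C_mul, Polynomial.coeff_X_pow,
    Polynomial.coeff_zero] at h2
  rw [Finset.sum_eq_single a] at h2
  · simpa using h2
  · intro b _ hb
    simp [Ne.symm hb]
  · intro h3
    exact absurd (Finset.mem_range.2 ha) h3

theorem s_COEF : S_COEF := by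
  intro c h a b hab
  have h1 : ∀ W : ℂ, ∀ a < 9, ∑ b ∈ Finset.range (9 - a), c a b * W ^ b = 0 := by
    intro W
    apply poly_zero
    intro Z
    rw [← h Z W 1]
    refine Finset.sum_congr rfl fun a _ => ?_
    rw [Finset.sum_mul]
    refine Finset.sum_congr rfl fun b _ => ?_
    rw [one_pow]
    ring
  exact poly_zero (9 - a) (c a) (fun W => h1 W a (by omega)) b (by omega)

/-- the exponent of `Z ^ a W ^ b U ^ (8 - a - b)` -/
noncomputable def ex (a b : ℕ) : Fin 3 →₀ ℕ := Finsupp.equivFunOnFinite.symm ![a, b, 8 - a - b]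

theorem ex0 (a b : ℕ) : ex a b 0 = a := rfl
theorem ex1 (a b : ℕ) : ex a b 1 = b := rfl
theorem ex2 (a b : ℕ) : ex a b 2 = 8 - a - b := rfl

/-- homogeneous polynomials of degree eight -/
theorem eval_hom (G : MvPolynomial (Fin 3) ℂ) (hG : G.IsHomogeneous 8) (Z W U : ℂ) :
    eval ![Z, W, U] G = ∑ a ∈ Finset.range 9, ∑ b ∈ Finset.range (9 - a),
      coeff (ex a b) G * Z ^ a * W ^ b * U ^ (8 - a - b) := by
  classical
  rw [eval_eq', Finset.sum_sigma']
  have hinj : Set.InjOn (fun s : (_ : ℕ) × ℕ => ex s.1 s.2)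
      ((Finset.range 9).sigma fun a => Finset.range (9 - a)) := by
    rintro ⟨a, b⟩ _ ⟨a', b'⟩ _ h
    have h0 := congrArg (fun d : Fin 3 →₀ ℕ => d 0) h
    have h1 := congrArg (fun d : Fin 3 →₀ ℕ => d 1) h
    simp only [ex0, ex1] at h0 h1
    subst h0 h1
    rfl
  have h1 : ∑ s ∈ (Finset.range 9).sigma fun a => Finset.range (9 - a),
      coeff (ex s.1 s.2) G * Z ^ s.1 * W ^ s.2 * U ^ (8 - s.1 - s.2) =
      ∑ d ∈ ((Finset.range 9).sigma fun a => Finset.range (9 - a)).image
        (fun s : (_ : ℕ) × ℕ => ex s.1 s.2), coeff d G * ∏ i, ![Z, W, U] i ^ d i := by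
    rw [Finset.sum_image hinj]
    refine Finset.sum_congr rfl fun s _ => ?_
    rw [Fin.prod_univ_three, ex0, ex1, ex2]
    simp only [Matrix.cons_val_zero, Matrix.cons_val_one, Matrix.cons_val]
    ring
  rw [h1]
  refine Finset.sum_subset ?_ ?_
  · intro d hd
    have hd8 : d.degree = 8 := by
      by_contra hne
      exact (mem_support_iff.1 hd) (hG.coeff_eq_zero hne)
    have hsum : d 0 + d 1 + d 2 = 8 := by
      rw [← hd8, Finsupp.degree_eq_sum, Fin.sum_univ_three]
    rw [Finset.mem_image]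
    refine ⟨⟨d 0, d 1⟩, ?_, ?_⟩
    · rw [Finset.mem_sigma, Finset.mem_range, Finset.mem_range]
      constructor <;> dsimp only <;> omega
    · ext i
      fin_cases i
      · exact ex0 _ _
      · exact ex1 _ _
      · change 8 - d 0 - d 1 = d 2
        omega
  · intro d _ hd
    rw [notMem_support_iff.1 hd, zero_mul]

/-- the complex linear substitution -/
noncomputable def sub : Fin 3 → MvPolynomial (Fin 3) ℂ :=
  ![C (1 / 2) * (X 0 + X 1), C (1 / (2 * Complex.I)) * (X 0 - X 1), X 2]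

theorem aeval_sub (F : MvPolynomial (Fin 3) ℝ) (Z W U : ℂ) :
    eval ![Z, W, U] (aeval sub F) = aeval ![(Z + W) / 2, (Z - W) / (2 * Complex.I), U] F := by
  have h : ((aeval ![Z, W, U] : MvPolynomial (Fin 3) ℂ →ₐ[ℂ] ℂ).restrictScalars ℝ).comp
      (aeval sub : MvPolynomial (Fin 3) ℝ →ₐ[ℝ] MvPolynomial (Fin 3) ℂ) =
      (aeval ![(Z + W) / 2, (Z - W) / (2 * Complex.I), U] : MvPolynomial (Fin 3) ℝ →ₐ[ℝ] ℂ) := by
    apply MvPolynomial.algHom_ext
    intro i
    rw [AlgHom.comp_apply, aeval_X, aeval_X, AlgHom.restrictScalars_apply]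
    fin_cases i
    · simp [sub]
      ring
    · simp [sub, div_eq_mul_inv, Complex.inv_I]
      ring
    · simp [sub]
  have h2 := congrArg (fun f => f F) h
  simp only [AlgHom.comp_apply, AlgHom.restrictScalars_apply] at h2
  rw [← h2]
  exact (congrArg (fun f => f (aeval sub F)) (coe_aeval_eq_eval ![Z, W, U])).symm

theorem sub_hom (i : Fin 3) : (sub i).IsHomogeneous 1 := by
  fin_cases i
  · exact ((isHomogeneous_X ℂ 0).add (isHomogeneous_X ℂ 1)).C_mul _
  · exact ((isHomogeneous_X ℂ 0).sub (isHomogeneous_X ℂ 1)).C_mul _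
  · exact isHomogeneous_X ℂ 2

/-- complex conjugation and the values of a real polynomial -/
theorem conj_aeval (F : MvPolynomial (Fin 3) ℝ) (v : Fin 3 → ℂ) :
    (starRingEnd ℂ) (aeval v F) = aeval (fun i => (starRingEnd ℂ) (v i)) F := by
  have h : (Complex.conjAe : ℂ →ₐ[ℝ] ℂ).comp (aeval v : MvPolynomial (Fin 3) ℝ →ₐ[ℝ] ℂ) =
      aeval (fun i => (starRingEnd ℂ) (v i)) := by
    apply MvPolynomial.algHom_ext
    intro i
    rw [AlgHom.comp_apply, aeval_X, aeval_X]
    rfl
  exact congrArg (fun f => f F) h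

theorem swap_sum (f : ℕ → ℕ → ℂ) :
    ∑ a ∈ Finset.range 9, ∑ b ∈ Finset.range (9 - a), f a b =
      ∑ a ∈ Finset.range 9, ∑ b ∈ Finset.range (9 - a), f b a := by
  refine Finset.sum_comm' fun a b => ?_
  simp only [Finset.mem_range]
  omega

theorem s_EXP : S_EXP := by
  intro F hF
  have hG : (aeval sub F).IsHomogeneous 8 := by
    have := hF.aeval sub (n := 1) sub_hom
    simpa using this
  have hexp : ∀ Z W U : ℂ, aeval ![(Z + W) / 2, (Z - W) / (2 * Complex.I), U] F =
      ∑ a ∈ Finset.range 9, ∑ b ∈ Finset.range (9 - a),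
        coeff (ex a b) (aeval sub F) * Z ^ a * W ^ b * U ^ (8 - a - b) := fun Z W U => by
    rw [← aeval_sub, eval_hom _ hG]
  refine ⟨fun a b => coeff (ex a b) (aeval sub F), hexp, ?_⟩
  have h2 : ∀ Z W U : ℂ, ∑ a ∈ Finset.range 9, ∑ b ∈ Finset.range (9 - a),
      (coeff (ex a b) (aeval sub F) - (starRingEnd ℂ) (coeff (ex b a) (aeval sub F))) *
        Z ^ a * W ^ b * U ^ (8 - a - b) = 0 := by
    intro Z W U
    have h3 : ∑ a ∈ Finset.range 9, ∑ b ∈ Finset.range (9 - a),
        (starRingEnd ℂ) (coeff (ex b a) (aeval sub F)) * Z ^ a * W ^ b * U ^ (8 - a - b) =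
        aeval ![(Z + W) / 2, (Z - W) / (2 * Complex.I), U] F := by
      have h4 := congrArg (starRingEnd ℂ)
        (hexp ((starRingEnd ℂ) W) ((starRingEnd ℂ) Z) ((starRingEnd ℂ) U))
      rw [conj_aeval] at h4
      have h5 : (fun i => (starRingEnd ℂ) (![((starRingEnd ℂ) W + (starRingEnd ℂ) Z) / 2,
          ((starRingEnd ℂ) W - (starRingEnd ℂ) Z) / (2 * Complex.I), (starRingEnd ℂ) U] i)) =
          ![(Z + W) / 2, (Z - W) / (2 * Complex.I), U] := by
        have c2 : (starRingEnd ℂ) 2 = 2 := map_ofNat _ 2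
        funext i
        fin_cases i
        · simp [c2]
          ring
        · simp [c2, div_eq_mul_inv, Complex.inv_I]
          ring
        · simp
      rw [h5] at h4
      rw [h4, swap_sum, map_sum]
      refine Finset.sum_congr rfl fun a _ => ?_
      rw [map_sum]
      refine Finset.sum_congr rfl fun b _ => ?_
      simp only [map_mul, map_pow, Complex.conj_conj]
      rw [Nat.sub_right_comm]
      ring
    have h6 := h3.trans (hexp Z W U)
    simp only [sub_mul, Finset.sum_sub_distrib]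
    rw [h6, sub_self]
  intro a b hab
  have h3 := s_COEF _ h2 b a (by omega)
  exact sub_eq_zero.1 h3

end Pool.Agent.L7h94.OC
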