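import Pool.Agent.L7h94.OC.Exp

/-!
# Project OC: part INV (invariant forms in complex coordinates)
-/

set_option autoImplicit false

open MvPolynomial

namespace Pool.Agent.L7h94.OC

open Pool.Agent.L7h17.OC

/-- the invariance holds at complex points -/
theorem inv_complex (F : MvPolynomial (Fin 3) ℝ) (θ χ : ℝ)
    (h : ∀ v : Fin 3 → ℝ, eval ((Rot θ).mulVec v) F = χ * eval v F) (v : Fin 3 → ℂ) :
    aeval (fun i => ∑ j, (Rot θ i j : ℂ) * v j) F = (χ : ℂ) * aeval v F := by
  have h1 : bind₁ (fun i => ∑ j, C (Rot θ i j) * X j) F = C χ * F := by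
    apply MvPolynomial.funext
    intro x
    rw [map_mul, eval_C, ← h x]
    have h2 : (eval x) (bind₁ (fun i => ∑ j, C (Rot θ i j) * X j) F) =
        eval (fun i => eval x (∑ j, C (Rot θ i j) * X j)) F := by
      have := eval₂Hom_bind₁ (RingHom.id ℝ) x (fun i => ∑ j, C (Rot θ i j) * X j) F
      exact this
    rw [h2]
    congr 1
    congr 1
    funext i
    rw [map_sum]
    simp only [map_mul, eval_C, eval_X]
    rfl
  have h3 := congrArg (aeval v : MvPolynomial (Fin 3) ℝ →ₐ[ℝ] ℂ) h1
  rw [aeval_bind₁] at h3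
  rw [map_mul, aeval_C] at h3
  have h4 : (fun i => (aeval v : MvPolynomial (Fin 3) ℝ →ₐ[ℝ] ℂ) (∑ j, C (Rot θ i j) * X j)) =
      fun i => ∑ j, (Rot θ i j : ℂ) * v j := by
    funext i
    rw [map_sum]
    refine Finset.sum_congr rfl fun j _ => ?_
    rw [map_mul, aeval_C, aeval_X]
    rfl
  rw [h4] at h3
  exact h3

theorem s_INV : S_INV := by
  intro F θ χ c hc h a b hab hne
  have hI : Complex.I ≠ 0 := Complex.I_ne_zero
  have key : ∀ Z W U : ℂ, ∑ a ∈ Finset.range 9, ∑ b ∈ Finset.range (9 - a),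
      (c a b * (Complex.exp (θ * Complex.I) ^ a * Complex.exp (-(θ * Complex.I)) ^ b - χ)) *
        Z ^ a * W ^ b * U ^ (8 - a - b) = 0 := by
    intro Z W U
    have h1 := inv_complex F θ χ h ![(Z + W) / 2, (Z - W) / (2 * Complex.I), U]
    have e1 : Complex.exp (θ * Complex.I) = Complex.cos θ + Complex.sin θ * Complex.I :=
      Complex.exp_mul_I _
    have e2 : Complex.exp (-(θ * Complex.I)) = Complex.cos θ - Complex.sin θ * Complex.I := by
      rw [← neg_mul, Complex.exp_mul_I, Complex.cos_neg, Complex.sin_neg]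
      ring
    have h2 : (fun i => ∑ j, (Rot θ i j : ℂ) * (![(Z + W) / 2, (Z - W) / (2 * Complex.I), U] j)) =
        ![(Complex.exp (θ * Complex.I) * Z + Complex.exp (-(θ * Complex.I)) * W) / 2,
          (Complex.exp (θ * Complex.I) * Z - Complex.exp (-(θ * Complex.I)) * W) /
            (2 * Complex.I), U] := by
      funext i
      rw [Fin.sum_univ_three, e1, e2]
      fin_cases i
      · simp [Rot, div_eq_mul_inv, Complex.inv_I]
        ring
      · simp [Rot, div_eq_mul_inv, Complex.inv_I]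
        linear_combination ((Complex.sin θ * Z + Complex.sin θ * W) / 2) * Complex.I_mul_I
      · simp [Rot]
    rw [h2, hc, hc, Finset.mul_sum] at h1
    rw [← sub_eq_zero] at h1
    rw [← h1, ← Finset.sum_sub_distrib]
    refine Finset.sum_congr rfl fun a _ => ?_
    rw [Finset.mul_sum, ← Finset.sum_sub_distrib]
    refine Finset.sum_congr rfl fun b _ => ?_
    rw [mul_pow, mul_pow]
    ring
  have h3 := s_COEF _ key a b hab
  rcases mul_eq_zero.1 h3 with h4 | h4
  · exact absurd h4 hne
  · rw [← sub_eq_zero.1 h4, ← Complex.exp_nat_mul, ← Complex.exp_nat_mul, ← Complex.exp_add]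
    congr 1
    ring

end Pool.Agent.L7h94.OC
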